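import Mathlib
import Pool.Agent.Q147.WeakPc

/-!
# MP_45eb7b_gt : a weakly pseudocompact `ω`-bounded group that is not precompact

The group is `ℤ × Σ`, where `Σ` is the group of all functions `ℝ → ZMod 2` with countable support.
-/

namespace Pool.Agent.Results.MP_45eb7b_gt.WeaklyPseudocompactNotPrecompact

open Pool.Agent.Q147.WeakPc Pool.Agent.Q147.SigmaProd

/-- There is a Hausdorff abelian topological group that is weakly pseudocompact and `ω`-bounded
in Guran's sense, but neither precompact nor pseudocompact. -/
theorem result : ∃ (G : Type) (_ : AddCommGroup G) (_ : TopologicalSpace G),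
    IsTopologicalAddGroup G ∧ T2Space G ∧ WeaklyPseudocompact G ∧ OmegaBounded G ∧
    ¬ Precompact G ∧ ¬ Pseudocompact G :=
  ⟨ℤ × Sg ℝ, inferInstance, inferInstance, inferInstance, inferInstance, weaklyPseudocompact ℝ,
    omegaBounded ℝ, not_precompact ℝ, not_pseudocompact ℝ⟩

end Pool.Agent.Results.MP_45eb7b_gt.WeaklyPseudocompactNotPrecompact
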